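import Pool.Agent.H796R3.TC.Rat

set_option autoImplicit false

/-!
# Canonical polymorphisms of `(ℚ; <)` are dictatorial on each cell
-/

namespace Pool.Agent.H796R3.TC

open FirstOrder FirstOrder.Language Pool.Agent.NPC

attribute [local instance] ratStr ratOrd

variable {n : ℕ} {c : Fin n → ℚ}

theorem sameType_iff {m : ℕ} (a b : Fin m → ℚ) :
    SameType FirstOrder.Language.order c a b ↔ (∀ l l', a l ≤ a l' ↔ b l ≤ b l') ∧
      (∀ l i, a l ≤ c i ↔ b l ≤ c i) ∧ ∀ l i, c i ≤ a l ↔ c i ≤ b l := by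
  constructor
  · rintro ⟨g, hc, hab⟩
    refine ⟨fun l l' => ?_, fun l i => ?_, fun l i => ?_⟩
    · rw [← hab, ← hab, aut_le]
    · rw [← hab, ← hc i, aut_le, hc i]
    · rw [← hab, ← hc i, aut_le, hc i]
  · rintro ⟨h1, h2, h3⟩
    obtain ⟨g, hg⟩ := exists_aut (Fin.append c a) (Fin.append c b) (fun i j => by
      refine Fin.addCases (fun i => ?_) (fun i => ?_) i <;>
        refine Fin.addCases (fun j => ?_) (fun j => ?_) j <;> simp [h1, h2, h3])
    refine ⟨g, fun i => ?_, fun l => ?_⟩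
    · have := hg (Fin.castAdd m i)
      simpa using this
    · have := hg (Fin.natAdd n l)
      simpa using this

/-- `x` and `y` are in the same open interval of `ℚ` without the points of `c`. -/
def Cell {n : ℕ} (c : Fin n → ℚ) (x y : ℚ) : Prop :=
  ∀ i, (x < c i ∧ y < c i) ∨ (c i < x ∧ c i < y)

theorem Cell.symm {x y : ℚ} (h : Cell c x y) : Cell c y x := fun i => by
  rcases h i with h | h
  · exact Or.inl ⟨h.2, h.1⟩
  · exact Or.inr ⟨h.2, h.1⟩

theorem Cell.trans {x y z : ℚ} (h : Cell c x y) (h' : Cell c y z) : Cell c x z := fun i => by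
  rcases h i with h | h <;> rcases h' i with h' | h'
  · exact Or.inl ⟨h.1, h'.2⟩
  · exact absurd (h.2.trans h'.1) (lt_irrefl _)
  · exact absurd (h.2.trans h'.1) (lt_irrefl _)
  · exact Or.inr ⟨h.1, h'.2⟩

theorem Cell.between {x y z : ℚ} (h : Cell c x y) (h1 : min x y ≤ z) (h2 : z ≤ max x y) :
    Cell c x z := fun i => by
  rcases h i with h | h
  · exact Or.inl ⟨h.1, h2.trans_lt (max_lt h.1 h.2)⟩
  · exact Or.inr ⟨h.1, (lt_min h.1 h.2).trans_le h1⟩

theorem Cell.exists_gt {x : ℚ} (h : Cell c x x) : ∃ z, x < z ∧ Cell c x z := by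
  have h1 : ∀ i, ∀ᶠ z in nhdsWithin x (Set.Ioi x), (x < c i ∧ z < c i) ∨ (c i < x ∧ c i < z) := by
    intro i
    rcases h i with h | h
    · filter_upwards [nhdsWithin_le_nhds (Iio_mem_nhds h.1)] with z hz
      exact Or.inl ⟨h.1, hz⟩
    · filter_upwards [nhdsWithin_le_nhds (Ioi_mem_nhds h.1)] with z hz
      exact Or.inr ⟨h.1, hz⟩
  obtain ⟨z, hz, hz'⟩ := ((Filter.eventually_all.2 h1).and self_mem_nhdsWithin).exists
  exact ⟨z, hz', hz⟩

theorem pair_sameType {x y z w : ℚ} (h1 : Cell c x y) (h2 : Cell c x z) (h3 : Cell c x w)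
    (hxy : x ≠ y) (hzw : z ≠ w) (h : x < y ↔ z < w) :
    SameType FirstOrder.Language.order c ![x, y] ![z, w] := by
  rw [sameType_iff]
  have hx : x ≤ y ↔ z ≤ w := by
    rw [le_iff_lt_or_eq, le_iff_lt_or_eq, h]
    simp [hxy, hzw]
  have hy : y ≤ x ↔ w ≤ z := by
    rw [← not_lt, ← not_lt, h]
  refine ⟨fun l l' => ?_, fun l i => ?_, fun l i => ?_⟩
  · fin_cases l <;> fin_cases l' <;> simp [hx, hy]
  · rcases h1 i with h1 | h1 <;> rcases h2 i with h2 | h2 <;> rcases h3 i with h3 | h3 <;>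
      fin_cases l <;> simp only [Fin.zero_eta, Fin.mk_one, Matrix.cons_val_zero,
        Matrix.cons_val_one] <;> constructor <;> intro h' <;> linarith [h1.1, h1.2, h2.1, h2.2, h3.1, h3.2]
  · rcases h1 i with h1 | h1 <;> rcases h2 i with h2 | h2 <;> rcases h3 i with h3 | h3 <;>
      fin_cases l <;> simp only [Fin.zero_eta, Fin.mk_one, Matrix.cons_val_zero,
        Matrix.cons_val_one] <;> constructor <;> intro h' <;> linarith [h1.1, h1.2, h2.1, h2.2, h3.1, h3.2]

/-- the relation `<` -/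
abbrev ltRel : Set (Fin 2 → ℚ) := {v | v 0 < v 1}

variable {k : ℕ} {f : (Fin k → ℚ) → ℚ}

theorem pol_lt (hpol : Preserves f ltRel) {x y : Fin k → ℚ} (h : ∀ j, x j < y j) : f x < f y := by
  have := hpol (fun j => ![x j, y j]) (fun j => by simpa [ltRel] using h j)
  simpa [ltRel] using this

theorem can_two (hcan : Canonical FirstOrder.Language.order c f) {x y z w : Fin k → ℚ}
    (h : ∀ j, SameType FirstOrder.Language.order c ![x j, y j] ![z j, w j]) :
    SameType FirstOrder.Language.order c ![f x, f y] ![f z, f w] := by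
  have := hcan 2 (fun j => ![x j, y j]) (fun j => ![z j, w j]) h
  have e : ∀ x y : Fin k → ℚ, (fun l => f (fun i => (![x i, y i] : Fin 2 → ℚ) l)) = ![f x, f y] := by
    intro x y
    funext l
    fin_cases l <;> rfl
  rw [e, e] at this
  exact this

theorem sameType_two_lt {x y z w : ℚ}
    (h : SameType FirstOrder.Language.order c ![x, y] ![z, w]) : x < y ↔ z < w := by
  rw [sameType_iff] at h
  have := h.1 1 0
  simp only [Matrix.cons_val_one, Matrix.cons_val_zero] at this
  rw [← not_le, ← not_le, this]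

theorem sameType_two_eq {x y z w : ℚ}
    (h : SameType FirstOrder.Language.order c ![x, y] ![z, w]) : x = y ↔ z = w := by
  rw [sameType_iff] at h
  have h1 := h.1 1 0
  have h2 := h.1 0 1
  simp only [Matrix.cons_val_one, Matrix.cons_val_zero] at h1 h2
  rw [le_antisymm_iff, le_antisymm_iff, h1, h2]

theorem cell_image (hpol : Preserves f ltRel) (hcan : Canonical FirstOrder.Language.order c f)
    {x y : Fin k → ℚ} (h : ∀ j, Cell c (x j) (y j)) : Cell c (f x) (f y) := by
  have one : ∀ {x y : Fin k → ℚ}, (∀ j, Cell c (x j) (y j)) →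
      (∀ i, f x ≤ c i ↔ f y ≤ c i) ∧ ∀ i, c i ≤ f x ↔ c i ≤ f y := by
    intro x y h
    have h1 := hcan 1 (fun j => ![x j]) (fun j => ![y j]) (fun j => by
      rw [sameType_iff]
      refine ⟨fun l l' => ?_, fun l i => ?_, fun l i => ?_⟩
      · fin_cases l; fin_cases l'; simp
      · fin_cases l
        rcases h j i with h | h
        · simp [h.1.le, h.2.le]
        · simp [not_le.2 h.1, not_le.2 h.2]
      · fin_cases l
        rcases h j i with h | h
        · simp [not_le.2 h.1, not_le.2 h.2]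
        · simp [h.1.le, h.2.le])
    rw [sameType_iff] at h1
    exact ⟨fun i => by simpa using h1.2.1 0 i, fun i => by simpa using h1.2.2 0 i⟩
  choose z hz hz' using fun j => ((h j).trans (h j).symm).exists_gt
  have h1 := one h
  have h2 := one hz'
  have h3 := pol_lt hpol hz
  intro i
  rcases lt_trichotomy (f x) (c i) with h4 | h4 | h4
  · refine Or.inl ⟨h4, ?_⟩
    rw [← not_le, ← h1.2 i, not_le]
    exact h4
  · exfalso
    have h5 := (h2.1 i).1 h4.le
    linarith
  · refine Or.inr ⟨h4, ?_⟩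
    rw [← not_le, ← h1.1 i, not_le]
    exact h4

theorem ne_image (hpol : Preserves f ltRel) (hcan : Canonical FirstOrder.Language.order c f)
    {x y : Fin k → ℚ} (h : ∀ j, Cell c (x j) (y j)) (hne : ∀ j, x j ≠ y j) : f x ≠ f y := by
  intro hf
  have hz : ∀ j, ∃ z, y j < z ∧ Cell c (x j) z ∧ x j ≠ z ∧ (x j < y j ↔ x j < z) := by
    intro j
    rcases lt_or_gt_of_ne (hne j) with h1 | h1
    · obtain ⟨z, hz, hz'⟩ := ((h j).symm.trans (h j)).exists_gt
      exact ⟨z, hz, (h j).trans hz', (h1.trans hz).ne, ⟨fun _ => h1.trans hz, fun _ => h1⟩⟩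
    · obtain ⟨z, hz, hz'⟩ := exists_between h1
      refine ⟨z, hz, (h j).between ?_ ?_, hz'.ne', ⟨fun h => absurd h h1.not_gt, fun h => absurd h hz'.not_gt⟩⟩
      · exact (min_le_right _ _).trans hz.le
      · exact hz'.le.trans (le_max_left _ _)
  choose z hz1 hz2 hz3 hz4 using hz
  have h1 := can_two (x := x) (y := y) (z := x) (w := z) hcan (fun j =>
    pair_sameType (h j) ((h j).trans (h j).symm) (hz2 j) (hne j) (hz3 j) (hz4 j))
  have h2 := (sameType_two_eq h1).1 hf
  have h3 := pol_lt hpol hz1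
  rw [← hf, ← h2] at h3
  exact lt_irrefl _ h3

set_option maxRecDepth 100000 in
theorem perm4 : ∀ s : Fin 3 → Bool, (∃ i, s i = false) → ∃ τ : Fin 4 → Fin 4,
    (∀ i : Fin 3, if s i = true then τ i.castSucc < τ i.succ else τ i.succ < τ i.castSucc) ∧
      τ 3 < τ 0 := by
  decide

theorem four {x y : ℚ} (h : Cell c x y) (hne : x ≠ y) (s : Fin 3 → Bool) (hs : ∃ i, s i = false) :
    ∃ w : Fin 4 → ℚ, (∀ t, Cell c x (w t)) ∧
      (∀ i : Fin 3, if s i = true then w i.castSucc < w i.succ else w i.succ < w i.castSucc) ∧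
      w 3 < w 0 := by
  obtain ⟨τ, hτ, hτ'⟩ := perm4 s hs
  have hd : 0 < max x y - min x y := by
    rcases lt_or_gt_of_ne hne with h1 | h1
    · rw [max_eq_right h1.le, min_eq_left h1.le]; linarith
    · rw [max_eq_left h1.le, min_eq_right h1.le]; linarith
  have hmono : ∀ i j : Fin 4, i < j → min x y + (max x y - min x y) * (i : ℕ) / 3 <
      min x y + (max x y - min x y) * (j : ℕ) / 3 := by
    intro i j hij
    have h2 : ((i : ℕ) : ℚ) < ((j : ℕ) : ℚ) := by exact_mod_cast hij
    have h3 := mul_lt_mul_of_pos_left h2 hd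
    linarith
  refine ⟨fun t => min x y + (max x y - min x y) * ((τ t : ℕ) : ℚ) / 3, fun t => ?_, fun i => ?_,
    hmono _ _ hτ'⟩
  · have h3 : ((τ t : ℕ) : ℚ) ≤ 3 := by
      have : (τ t : ℕ) ≤ 3 := by omega
      exact_mod_cast this
    have h0 : (0 : ℚ) ≤ ((τ t : ℕ) : ℚ) := by positivity
    refine h.between ?_ ?_
    · have : 0 ≤ (max x y - min x y) * ((τ t : ℕ) : ℚ) := mul_nonneg hd.le h0
      linarith
    · have : (max x y - min x y) * ((τ t : ℕ) : ℚ) ≤ (max x y - min x y) * 3 :=
        mul_le_mul_of_nonneg_left h3 hd.le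
      linarith
  · have := hτ i
    split_ifs with h1
    · rw [if_pos h1] at this
      exact hmono _ _ this
    · rw [if_neg h1] at this
      exact hmono _ _ this

theorem no_all_lt (hpol : Preserves f ltRel) (hcan : Canonical FirstOrder.Language.order c f)
    (A B : Fin 3 → Fin k → ℚ) (hA : ∀ j i, Cell c (A 0 j) (A i j))
    (hB : ∀ j i, Cell c (A 0 j) (B i j)) (hne : ∀ i j, A i j ≠ B i j)
    (hdesc : ∀ j, ∃ i, B i j < A i j) : ¬ ∀ i, f (A i) < f (B i) := by
  intro hlt
  have h4 := fun j => four (hB j 0) (hne 0 j) (fun i => decide (A i j < B i j)) (by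
    obtain ⟨i, hi⟩ := hdesc j
    exact ⟨i, by simp [hi.le]⟩)
  choose w hw1 hw2 hw3 using h4
  have key : ∀ i : Fin 3, f (fun j => w j i.castSucc) < f (fun j => w j i.succ) := by
    intro i
    have h5 := can_two (x := A i) (y := B i) (z := fun j => w j i.castSucc)
      (w := fun j => w j i.succ) hcan (fun j => by
        have h6 := hw2 j i
        simp only [decide_eq_true_eq] at h6
        refine pair_sameType ((hA j i).symm.trans (hB j i)) ((hA j i).symm.trans (hw1 j _))
          ((hA j i).symm.trans (hw1 j _)) (hne i j) ?_ ?_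
        · split_ifs at h6
          · exact h6.ne
          · exact h6.ne'
        · split_ifs at h6 with h7
          · simp [h7, h6]
          · simp [h7, h6.le])
    exact (sameType_two_lt h5).1 (hlt i)
  have h0 := key 0
  have h1 := key 1
  have h2 := key 2
  have h3 := pol_lt hpol (x := fun j => w j 3) (y := fun j => w j 0) hw3
  have e1 : ((0 : Fin 3).succ : Fin 4) = (1 : Fin 3).castSucc := rfl
  have e2 : ((1 : Fin 3).succ : Fin 4) = (2 : Fin 3).castSucc := rfl
  have e3 : ((2 : Fin 3).succ : Fin 4) = 3 := rfl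
  have e0 : ((0 : Fin 3).castSucc : Fin 4) = 0 := rfl
  rw [e0, e1] at h0
  rw [e2] at h1
  rw [e3] at h2
  exact lt_irrefl _ ((h0.trans h1).trans (h2.trans h3))

end Pool.Agent.H796R3.TC
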