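import Mathlib
import Pool.Agent.NPC.Classes

set_option autoImplicit false

/-!
# Type clones of canonical polymorphisms: definitions

`L` is a relational language (Mathlib's first order languages), `D` the domain of the structure
`Δ` (an `L`-structure), and the reduct `Γ` is a family `R i ⊆ D ^ (ar i)` of relations that are
first-order definable in `Δ` without parameters.
-/

namespace Pool.Agent.H796R3.TC

open FirstOrder FirstOrder.Language Pool.Agent.NPC

/-- A relational structure on the set `B` with finitely many relations: `k` relations, the `j`-th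
of arity `ar j`. -/
structure Template (B : Type) where
  /-- the number of relations -/
  k : ℕ
  /-- the arities -/
  ar : Fin k → ℕ
  /-- the relations -/
  rel : ∀ j, Set (Fin (ar j) → B)

/-- An instance of a CSP: a finite structure whose elements are natural numbers, given by the list
of its facts; the fact `(j, [x₁, ..., x_a])` says that the `j`-th relation holds of
`(x₁, ..., x_a)`. (Elements in no fact are irrelevant for the existence of a homomorphism.) -/
abbrev Inst : Type := List (ℕ × List ℕ)

/-- The constraint satisfaction problem: there is a homomorphism from `X` to `A`. (An ill-formed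
`X`, where a fact uses a relation number `≥ k` or a wrong arity, is a no-instance.) -/
def Template.CSP {B : Type} (A : Template B) (X : Inst) : Prop :=
  ∃ h : ℕ → B, ∀ p ∈ X, ∃ (hj : p.1 < A.k) (hl : A.ar ⟨p.1, hj⟩ = p.2.length),
    (fun i : Fin (A.ar ⟨p.1, hj⟩) => h (p.2.get (Fin.cast hl i))) ∈ A.rel ⟨p.1, hj⟩

/-- `CSP(Γ)` is tractable: for every finite family of the relations of `Γ`, the CSP of the
structure with these relations is in `P`. -/
def Tractable {D ι : Type} (ar : ι → ℕ) (R : ∀ i, Set (Fin (ar i) → D)) : Prop :=
  ∀ (k : ℕ) (e : Fin k → ι), InPP (Template.CSP ⟨k, fun j => ar (e j), fun j => R (e j)⟩)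

/-- The `k`-ary operation `f` preserves the relation `R`. -/
def Preserves {B : Type} {k a : ℕ} (f : (Fin k → B) → B) (R : Set (Fin a → B)) : Prop :=
  ∀ t : Fin k → Fin a → B, (∀ i, t i ∈ R) → (fun l => f (fun i => t i l)) ∈ R

/-- `f` is a polymorphism of `Γ`. -/
def IsPol {D ι : Type} (ar : ι → ℕ) (R : ∀ i, Set (Fin (ar i) → D)) {k : ℕ}
    (f : (Fin k → D) → D) : Prop :=
  ∀ i, Preserves f (R i)

section
variable (L : FirstOrder.Language.{0, 0}) {D : Type} [L.Structure D] {n : ℕ} (c : Fin n → D)

/-- The tuples `a` and `b` have the same type in `(Δ, c)`: some automorphism of `Δ` fixing the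
constants `c` maps `a` to `b`. -/
def SameType {m : ℕ} (a b : Fin m → D) : Prop :=
  ∃ g : D ≃[L] D, (∀ i, g (c i) = c i) ∧ ∀ l, g (a l) = b l

/-- Having the same type is an equivalence relation. -/
def typeSetoid (m : ℕ) : Setoid (Fin m → D) where
  r := SameType L c
  iseqv :=
    { refl := fun a => ⟨FirstOrder.Language.Equiv.refl L D, fun _ => rfl, fun _ => rfl⟩
      symm := fun {a b} ⟨g, hg, hab⟩ => ⟨g.symm, fun i => by
        rw [← hg i, FirstOrder.Language.Equiv.symm_apply_apply, hg i], fun l => by
        rw [← hab l, FirstOrder.Language.Equiv.symm_apply_apply]⟩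
      trans := fun {a b d} ⟨g, hg, hab⟩ ⟨g', hg', hbd⟩ => ⟨g'.comp g, fun i => by
        rw [FirstOrder.Language.Equiv.comp_apply, hg, hg'], fun l => by
        rw [FirstOrder.Language.Equiv.comp_apply, hab, hbd]⟩ }

/-- The set of the types of `m`-tuples in `(Δ, c)`. -/
abbrev Types (m : ℕ) : Type := Quotient (typeSetoid L c m)

/-- The type of a tuple. -/
def tp {m : ℕ} (a : Fin m → D) : Types L c m := Quotient.mk (typeSetoid L c m) a

/-- `f` is canonical for `(Δ, c)`. -/
def Canonical {k : ℕ} (f : (Fin k → D) → D) : Prop :=
  ∀ (m : ℕ) (a b : Fin k → Fin m → D), (∀ i, SameType L c (a i) (b i)) →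
    SameType L c (fun l => f (fun i => a i l)) (fun l => f (fun i => b i l))

/-- The operation `F` on the types of `m`-tuples belongs to the type clone of `Γ = (D; R)` over
`(Δ, c)`: it is induced by a canonical polymorphism of `Γ`. -/
def InTypeClone {ι : Type} (ar : ι → ℕ) (R : ∀ i, Set (Fin (ar i) → D)) (m : ℕ) {k : ℕ}
    (F : (Fin k → Types L c m) → Types L c m) : Prop :=
  ∃ f : (Fin k → D) → D, IsPol ar R f ∧ Canonical L c f ∧
    ∀ a : Fin k → Fin m → D, F (fun i => tp L c (a i)) = tp L c (fun l => f (fun i => a i l))

/-- The structure `A` on the set of types is preserved by all operations of the type clone. -/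
def Admissible {ι : Type} (ar : ι → ℕ) (R : ∀ i, Set (Fin (ar i) → D)) (m : ℕ)
    (A : Template (Types L c m)) : Prop :=
  ∀ (k : ℕ), 0 < k → ∀ F : (Fin k → Types L c m) → Types L c m, InTypeClone L c ar R m F →
    ∀ j, Preserves F (A.rel j)

/-- The type clone (on types of `m`-tuples) corresponds to a tractable CSP. -/
def CorrTractable {ι : Type} (ar : ι → ℕ) (R : ∀ i, Set (Fin (ar i) → D)) (m : ℕ) : Prop :=
  ∀ A : Template (Types L c m), Admissible L c ar R m A → InPP A.CSP

end

section
variable (L : FirstOrder.Language.{0, 0}) (D : Type) [L.Structure D]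

/-- There is a finite family of finite structures such that a finite structure embeds into `Δ` if
and only if no member of the family embeds into it. -/
def FinitelyBounded : Prop :=
  ∃ (J : Type) (_ : Finite J) (F : J → Type) (_ : ∀ j, L.Structure (F j)),
    (∀ j, Finite (F j)) ∧ ∀ (A : Type) [L.Structure A] [Finite A],
      Nonempty (A ↪[L] D) ↔ ∀ j, IsEmpty (F j ↪[L] A)

/-- One of the relations of `Δ` is a linear order (reflexive or irreflexive) of the domain. -/
def Ordered : Prop :=
  ∃ (r : L.Relations 2) (_ : LinearOrder D),
    (∀ x y : D, FirstOrder.Language.Structure.RelMap r ![x, y] ↔ x ≤ y) ∨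
      ∀ x y : D, FirstOrder.Language.Structure.RelMap r ![x, y] ↔ x < y

/-- The Ramsey property of the class of the finite structures `A`, `B`, `C` that embed into `Δ`:
for every 2-colouring of the (copies of `A` in the) subsets of `C` there is a copy `g B` of `B` in
`C` all of whose copies of `A` have the same colour. -/
def RamseyProp : Prop :=
  ∀ (A B : Type) [L.Structure A] [L.Structure B] [Finite A] [Finite B],
    Nonempty (A ↪[L] D) → Nonempty (B ↪[L] D) →
    ∃ (C : Type) (_ : L.Structure C), Finite C ∧ Nonempty (C ↪[L] D) ∧
      ∀ χ : Set C → Bool, ∃ g : B ↪[L] C, ∀ f f' : A ↪[L] B,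
        χ (Set.range (g.comp f)) = χ (Set.range (g.comp f'))

/-- `Δ` is a finitely bounded, ordered, homogeneous Ramsey structure, countable and with finite
relational signature. -/
structure Good : Prop where
  /-- the language is relational -/
  relational : ∀ n, IsEmpty (L.Functions n)
  /-- the signature is finite -/
  finite_signature : Finite (Σ n, L.Relations n)
  /-- the domain is countable -/
  countable : Countable D
  /-- homogeneity -/
  homogeneous : L.IsUltrahomogeneous D
  /-- finite boundedness -/
  finitelyBounded : FinitelyBounded L D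
  /-- an order is among the relations -/
  ordered : Ordered L D
  /-- the Ramsey property -/
  ramsey : RamseyProp L D

end

/-- The assertion of Q1: if `Δ` is a finitely bounded, ordered, homogeneous Ramsey structure, with
maximal arity `r` of its signature, and `Γ = (D; R)` is a reduct of `Δ` with tractable CSP, then
for some tuple `c` of elements of `Δ` the type clone of `Γ` over `(Δ, c)` corresponds to a
tractable CSP. -/
def Question : Prop :=
  ∀ (L : FirstOrder.Language.{0, 0}) (D : Type) [L.Structure D], Good L D →
    ∀ r : ℕ, IsGreatest {n | Nonempty (L.Relations n)} r →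
    ∀ (ι : Type) (ar : ι → ℕ) (R : ∀ i, Set (Fin (ar i) → D)),
      (∀ i, (∅ : Set D).Definable L (R i)) → Tractable ar R →
        ∃ (n : ℕ) (c : Fin n → D), CorrTractable L c ar R r

end Pool.Agent.H796R3.TC
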