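import Pool.Agent.H796R3.TC.Stmts

set_option autoImplicit false

/-!
# Task B: `(ℚ; ≤)` is finitely bounded
-/

namespace Pool.Agent.H796R3.TC

open FirstOrder FirstOrder.Language

/-- The relation `r` is a (reflexive) linear order. -/
def IsLinB {α : Type} (r : α → α → Prop) : Prop :=
  (∀ x y, r x y ∨ r y x) ∧ (∀ x y, r x y → r y x → x = y) ∧ ∀ x y z, r x y → r y z → r x z

/-- The structure in the language of orders given by a relation. -/
@[reducible] def relStrB {α : Type} (r : α → α → Prop) : Language.order.Structure α where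
  RelMap := fun {n} R => match n, R with
    | _, .le => fun x => r (x 0) (x 1)

lemma isLinB_of_small {α : Type} (r : α → α → Prop)
    (h : ∀ k : Fin 4, ∀ f : Fin k → α, Function.Injective f → IsLinB (fun i j => r (f i) (f j))) :
    IsLinB r := by
  classical
  have key : ∀ x y z : α, ∃ (k : Fin 4) (f : Fin k → α), Function.Injective f ∧
      (∃ i, f i = x) ∧ (∃ i, f i = y) ∧ (∃ i, f i = z) := by
    intro x y z
    have hc : ({x, y, z} : Finset α).card < 4 := by
      have := Finset.card_le_three (a := x) (b := y) (c := z)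
      omega
    refine ⟨⟨_, hc⟩, fun i => ((({x, y, z} : Finset α).equivFin.symm i : _) : α), ?_, ?_, ?_, ?_⟩
    · intro i j hij
      exact ({x, y, z} : Finset α).equivFin.symm.injective (Subtype.ext hij)
    · exact ⟨({x, y, z} : Finset α).equivFin ⟨x, by simp⟩, by simp⟩
    · exact ⟨({x, y, z} : Finset α).equivFin ⟨y, by simp⟩, by simp⟩
    · exact ⟨({x, y, z} : Finset α).equivFin ⟨z, by simp⟩, by simp⟩
  refine ⟨?_, ?_, ?_⟩
  · intro x y
    obtain ⟨k, f, hf, ⟨i, hi⟩, ⟨j, hj⟩, _⟩ := key x y x
    subst hi
    subst hj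
    exact (h k f hf).1 i j
  · intro x y hxy hyx
    obtain ⟨k, f, hf, ⟨i, hi⟩, ⟨j, hj⟩, _⟩ := key x y x
    subst hi
    subst hj
    rw [(h k f hf).2.1 i j hxy hyx]
  · intro x y z hxy hyz
    obtain ⟨k, f, hf, ⟨i, hi⟩, ⟨j, hj⟩, ⟨l, hl⟩⟩ := key x y z
    subst hi
    subst hj
    subst hl
    exact (h k f hf).2.2 i j l hxy hyz

theorem taskB : TaskB := by
  classical
  letI := FirstOrder.Language.orderStructure ℚ
  refine ⟨{p : Σ k : Fin 4, (Fin k → Fin k → Prop) // ¬ IsLinB p.2}, inferInstance,
    fun j => Fin j.1.1, fun j => relStrB j.1.2, fun j => inferInstance, ?_⟩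
  intro A instA _
  -- the relation on `A`
  let r : A → A → Prop := fun x y =>
    FirstOrder.Language.Structure.RelMap (L := Language.order) (M := A) orderRel.le ![x, y]
  have hrel : ∀ v : Fin 2 → A,
      FirstOrder.Language.Structure.RelMap (L := Language.order) (M := A) orderRel.le v ↔
        r (v 0) (v 1) := by
    intro v
    have : v = ![v 0, v 1] := by
      funext i
      fin_cases i <;> rfl
    show _ ↔ FirstOrder.Language.Structure.RelMap (L := Language.order) (M := A) orderRel.le
      ![v 0, v 1]
    rw [← this]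
  have hQ : ∀ v : Fin 2 → ℚ,
      FirstOrder.Language.Structure.RelMap (L := Language.order) (M := ℚ) orderRel.le v ↔
        v 0 ≤ v 1 := fun v => Iff.rfl
  have step1 : Nonempty (A ↪[Language.order] ℚ) ↔ IsLinB r := by
    constructor
    · rintro ⟨g⟩
      have hg : ∀ x y, r x y ↔ g x ≤ g y := by
        intro x y
        have := g.map_rel orderRel.le ![x, y]
        rw [hQ] at this
        exact this.symm
      refine ⟨fun x y => ?_, fun x y h1 h2 => ?_, fun x y z h1 h2 => ?_⟩
      · rw [hg, hg]; exact le_total _ _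
      · rw [hg] at h1 h2
        exact g.injective (le_antisymm h1 h2)
      · rw [hg] at h1 h2 ⊢
        exact h1.trans h2
    · intro hl
      letI : LinearOrder A :=
        { le := r
          le_refl := fun x => by
            rcases hl.1 x x with h | h <;> exact h
          le_trans := hl.2.2
          le_antisymm := hl.2.1
          le_total := hl.1
          toDecidableLE := Classical.decRel _ }
      obtain ⟨g⟩ := Order.embedding_from_countable_to_dense (α := A) (β := ℚ)
      refine ⟨⟨g.toEmbedding, fun {n} f => isEmptyElim f, ?_⟩⟩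
      intro n R x
      match n, R with
      | _, .le =>
        rw [hrel, hQ]
        exact g.le_iff_le
  rw [step1]
  constructor
  · intro hl j
    refine ⟨fun g => j.2 ?_⟩
    letI := relStrB j.1.2
    have hg : ∀ x y, j.1.2 x y ↔ r (g x) (g y) := by
      intro x y
      have := g.map_rel orderRel.le ![x, y]
      rw [hrel] at this
      exact this.symm
    refine ⟨fun x y => ?_, fun x y h1 h2 => ?_, fun x y z h1 h2 => ?_⟩
    · rw [hg, hg]; exact hl.1 _ _
    · rw [hg] at h1 h2
      exact g.injective (hl.2.1 _ _ h1 h2)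
    · rw [hg] at h1 h2 ⊢
      exact hl.2.2 _ _ _ h1 h2
  · intro h
    apply isLinB_of_small
    intro k f hf
    by_contra hcon
    have hE := h ⟨⟨k, fun i j => r (f i) (f j)⟩, hcon⟩
    apply hE.false
    letI := relStrB (fun i j : Fin k => r (f i) (f j))
    refine ⟨⟨f, hf⟩, fun {n} f => isEmptyElim f, ?_⟩
    intro n R x
    match n, R with
    | _, .le =>
      rw [hrel]
      exact Iff.rfl

end Pool.Agent.H796R3.TC
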