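import Pool.Agent.H796R3.TC.Stmts

set_option autoImplicit false

/-!
# Task E: finitely many types
-/

namespace Pool.Agent.H796R3.TC

open FirstOrder FirstOrder.Language

namespace TEx

variable {L : FirstOrder.Language.{0, 0}} {D : Type} [L.Structure D] {m : ℕ}

/-- the pattern of a tuple -/
def pattern (L : FirstOrder.Language.{0, 0}) {D : Type} [L.Structure D] {m : ℕ} (a : Fin m → D) :
    (Fin m → Fin m → Prop) × ((s : Σ n, L.Relations n) → (Fin s.1 → Fin m) → Prop) :=
  (fun i j => a i = a j, fun s u => FirstOrder.Language.Structure.RelMap s.2 (fun k => a (u k)))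

theorem same (hL : ∀ n, IsEmpty (L.Functions n)) (hD : L.IsUltrahomogeneous D) (c : Fin 0 → D)
    (a b : Fin m → D) (h : pattern L a = pattern L b) : SameType L c a b := by
  classical
  have h1 : ∀ i j, a i = a j ↔ b i = b j := by
    intro i j
    have := congrFun (congrFun (congrArg Prod.fst h) i) j
    exact iff_of_eq this
  have h2 : ∀ {n : ℕ} (r : L.Relations n) (u : Fin n → Fin m),
      FirstOrder.Language.Structure.RelMap r (fun k => a (u k)) ↔
        FirstOrder.Language.Structure.RelMap r (fun k => b (u k)) := by
    intro n r u
    have := congrFun (congrFun (congrArg Prod.snd h) ⟨n, r⟩) u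
    exact iff_of_eq this
  haveI : L.IsRelational := hL
  let S : L.Substructure D := Substructure.closure L (Set.range a)
  have hS : (S : Set D) = Set.range a := Substructure.closure_eq_of_isRelational L _
  have hmem : ∀ x : S, ∃ i, a i = (x : D) := by
    intro x
    have : (x : D) ∈ (S : Set D) := x.2
    rw [hS] at this
    exact this
  choose ch hch using hmem
  let f : S ↪[L] D :=
    { toFun := fun x => b (ch x)
      inj' := by
        intro x y hxy
        have : a (ch x) = a (ch y) := (h1 _ _).2 hxy
        rw [hch, hch] at this
        exact Subtype.ext this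
      map_fun' := by
        intro n g x
        exact (hL n).elim g
      map_rel' := by
        intro n r x
        have e1 : FirstOrder.Language.Structure.RelMap r x ↔
            FirstOrder.Language.Structure.RelMap r (fun k => (x k : D)) := Iff.rfl
        have e2 : (fun k => (x k : D)) = fun k => a (ch (x k)) := by
          funext k
          rw [hch]
        rw [e1, e2]
        exact (h2 r _).symm }
  have hfg : S.FG := Substructure.fg_closure (Set.finite_range a)
  obtain ⟨g, hg⟩ := hD S hfg f
  refine ⟨g, fun i => i.elim0, fun l => ?_⟩
  have hl : a l ∈ (S : Set D) := by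
    rw [hS]
    exact ⟨l, rfl⟩
  have h3 : f ⟨a l, hl⟩ = g (a l) := by
    rw [hg]
    rfl
  rw [← h3]
  show b (ch ⟨a l, hl⟩) = b l
  exact (h1 _ _).1 (hch _)

end TEx

open TEx

theorem taskE : TaskE := by
  intro L D _ hL hfin hD c m
  haveI := hfin
  exact Finite.of_injective
    (fun x : Types L c m => pattern L (Quotient.out x)) (by
      intro x y hxy
      have := same hL hD c _ _ hxy
      rw [← Quotient.out_eq x, ← Quotient.out_eq y]
      exact Quotient.sound this)

end Pool.Agent.H796R3.TC
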