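import Pool.Agent.H796R3.TC.Main
import Pool.Agent.H796R3.TC.TaskB
import Pool.Agent.H796R3.TC.TaskE
import Pool.Agent.H45R3.TCTaskA

set_option autoImplicit false

/-!
# Assembly
-/

namespace Pool.Agent.H796R3.TC

open FirstOrder FirstOrder.Language Pool.Agent.NPC

attribute [local instance] ratStr ratOrd

/-- `P = NP` -/
def PeqNP : Prop := ∀ S : Set (List Bool), InP S ↔ InNP S

theorem rat_good (hA : TaskA) (hB : TaskB) : Good FirstOrder.Language.order ℚ where
  relational := fun _ => inferInstance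
  finite_signature := inferInstance
  countable := inferInstance
  homogeneous := rat_homogeneous
  finitelyBounded := hB
  ordered := ⟨leSymb, inferInstance, Or.inl fun x y => by
    rw [relMap_leSymb]
    simp⟩
  ramsey := hA

theorem rat_arity : IsGreatest {n | Nonempty (FirstOrder.Language.order.Relations n)} 2 := by
  refine ⟨⟨leSymb⟩, ?_⟩
  rintro n ⟨r⟩
  cases r
  exact le_rfl

theorem rat_definable :
    (∅ : Set ℚ).Definable FirstOrder.Language.order {v : Fin 2 → ℚ | v 0 < v 1} := by
  rw [Set.empty_definable_iff]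
  refine ⟨∼(Relations.formula₂ (leSymb : FirstOrder.Language.order.Relations 2)
    (Term.var 1) (Term.var 0)), ?_⟩
  ext v
  simp only [Set.mem_setOf_eq, Formula.realize_not, Formula.realize_rel₂, relMap_leSymb]
  simp

theorem of_pNP {S : Set (List Bool)} (h : PeqNP) (hS : InNP S) : InP S := (h S).2 hS

/-- The explicit example. -/
theorem explicit (hA : TaskA) (hB : TaskB) (hC : TaskC) :
    Good FirstOrder.Language.order ℚ ∧
    (∅ : Set ℚ).Definable FirstOrder.Language.order {v : Fin 2 → ℚ | v 0 < v 1} ∧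
    Tractable (fun _ : Unit => 2) (fun _ => {v : Fin 2 → ℚ | v 0 < v 1}) ∧
    ∀ (n : ℕ) (c : Fin n → ℚ) (m : ℕ), 2 ≤ m →
      ∃ A : Template (Types FirstOrder.Language.order c m), A.k = 1 ∧ (∀ j, A.ar j = 3) ∧
        Admissible FirstOrder.Language.order c (fun _ : Unit => 2)
          (fun _ => {v : Fin 2 → ℚ | v 0 < v 1}) m A ∧ NPHardP A.CSP :=
  ⟨rat_good hA hB, rat_definable, hC, fun _ c _ hm => ⟨NT c hm, rfl, fun _ => rfl,
    admissible_NT c hm, (hardI_NT c hm).toNPHardP⟩⟩

theorem final (hA : TaskA) (hB : TaskB) (hC : TaskC) (hD : TaskD) (hE : TaskE) :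
    Question ↔ PeqNP := by
  constructor
  · intro hQ S
    refine ⟨InP.inNP, ?_⟩
    obtain ⟨n, c, hc⟩ := hQ FirstOrder.Language.order ℚ (rat_good hA hB) 2 rat_arity Unit
      (fun _ => 2) (fun _ => {v : Fin 2 → ℚ | v 0 < v 1}) (fun _ => rat_definable) hC
    exact NPHard.collapse (hardI_NT c le_rfl).toNPHardP (hc _ (admissible_NT c le_rfl)) S
  · intro hP L D _ hgood r _ ι ar R _ _
    refine ⟨0, Fin.elim0, fun A _ => ?_⟩
    have := hE L D hgood.relational hgood.finite_signature hgood.homogeneous Fin.elim0 r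
    exact (hP _).2 (hD _ A)

end Pool.Agent.H796R3.TC
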