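import Pool.Agent.H796R3.TC.Arrow
import Pool.Agent.H648R3.WC.Nae
import Pool.Agent.NPC.Dec

set_option autoImplicit false

/-!
# The type clones of `(ℚ; <)` have NP-hard CSPs
-/

namespace Pool.Agent.H796R3.TC

open FirstOrder FirstOrder.Language Pool.Agent.NPC Pool.Agent.NPC.WC648

attribute [local instance] ratStr ratOrd

variable {n : ℕ} (c : Fin n → ℚ)

/-- the first index -/
def z0 {m : ℕ} (hm : 2 ≤ m) : Fin m := ⟨0, by omega⟩

/-- the second index -/
def z1 {m : ℕ} (hm : 2 ≤ m) : Fin m := ⟨1, by omega⟩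

theorem z0_ne_z1 {m : ℕ} (hm : 2 ≤ m) : z0 hm ≠ z1 hm := by
  simp [z0, z1]

/-- Triples of types of tuples whose first two entries are distinct and lie in one cell (the same
cell for the three tuples), not all increasing and not all decreasing. -/
def NR {m : ℕ} (hm : 2 ≤ m) : Set (Fin 3 → Types FirstOrder.Language.order c m) :=
  {p | ∃ a : Fin 3 → Fin m → ℚ, (∀ i, p i = tp FirstOrder.Language.order c (a i)) ∧
    (∀ i, Cell c (a 0 (z0 hm)) (a i (z0 hm))) ∧ (∀ i, Cell c (a 0 (z0 hm)) (a i (z1 hm))) ∧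
    (∀ i, a i (z0 hm) ≠ a i (z1 hm)) ∧ (∃ i, a i (z0 hm) < a i (z1 hm)) ∧
    ∃ i, a i (z1 hm) < a i (z0 hm)}

variable {c}

theorem nr_preserved {m : ℕ} (hm : 2 ≤ m) {k : ℕ}
    {F : (Fin k → Types FirstOrder.Language.order c m) → Types FirstOrder.Language.order c m}
    (hF : InTypeClone FirstOrder.Language.order c (fun _ : Unit => 2)
      (fun _ => {v : Fin 2 → ℚ | v 0 < v 1}) m F) : Preserves F (NR c hm) := by
  obtain ⟨f, hpol', hcan, hind⟩ := hF
  have hpol : Preserves f ltRel := hpol' ()
  intro t ht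
  choose a ha hc0 hc1 hne hup hdn using ht
  have hne' : ∀ i, f (fun j => a j i (z0 hm)) ≠ f (fun j => a j i (z1 hm)) := fun i =>
    ne_image hpol hcan (fun j => (hc0 j i).symm.trans (hc1 j i)) (fun j => hne j i)
  refine ⟨fun i l => f (fun j => a j i l), fun i => ?_, fun i => ?_, fun i => ?_, hne', ?_, ?_⟩
  · have h1 : (fun j => t j i) = fun j => tp FirstOrder.Language.order c (a j i) := by
      funext j
      exact ha j i
    show F (fun j => t j i) = _
    rw [h1, hind]
  · exact cell_image hpol hcan (fun j => hc0 j i)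
  · exact cell_image hpol hcan (fun j => hc1 j i)
  · by_contra hcon
    push Not at hcon
    refine no_all_lt hpol hcan (fun i j => a j i (z1 hm)) (fun i j => a j i (z0 hm))
      (fun j i => (hc1 j 0).symm.trans (hc1 j i)) (fun j i => (hc1 j 0).symm.trans (hc0 j i))
      (fun i j => (hne j i).symm) (fun j => hup j) (fun i => ?_)
    exact lt_of_le_of_ne (hcon i) (hne' i).symm
  · by_contra hcon
    push Not at hcon
    refine no_all_lt hpol hcan (fun i j => a j i (z0 hm)) (fun i j => a j i (z1 hm))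
      (fun j i => hc0 j i) (fun j i => hc1 j i)
      (fun i j => hne j i) (fun j => hdn j) (fun i => ?_)
    exact lt_of_le_of_ne (hcon i) (hne' i)

variable (c)

/-- The structure with the only relation `NR`. -/
def NT {m : ℕ} (hm : 2 ≤ m) : Template (Types FirstOrder.Language.order c m) :=
  ⟨1, fun _ => 3, fun _ => NR c hm⟩

/-- variables as numbers -/
def e (v : NV) : ℕ :=
  if v.1 < (bif v.2.2 then 2 * v.2.1 + 1 else 2 * v.2.1) then
    (bif v.2.2 then 2 * v.2.1 + 1 else 2 * v.2.1) * (bif v.2.2 then 2 * v.2.1 + 1 else 2 * v.2.1)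
      + v.1
  else v.1 * v.1 + v.1 + (bif v.2.2 then 2 * v.2.1 + 1 else 2 * v.2.1)

theorem e_eq (v : NV) : e v = Nat.pair v.1 (bif v.2.2 then 2 * v.2.1 + 1 else 2 * v.2.1) := rfl

theorem e_injective : Function.Injective e := by
  intro v w h
  rw [e_eq, e_eq, Nat.pair_eq_pair] at h
  obtain ⟨a, i, b⟩ := v
  obtain ⟨a', i', b'⟩ := w
  obtain ⟨h1, h2⟩ := h
  simp only at h1 h2
  subst h1
  cases b <;> cases b' <;> simp only [cond_true, cond_false] at h2
  · have : i = i' := by omega
    rw [this]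
  · omega
  · omega
  · have : i = i' := by omega
    rw [this]

theorem e_poly : Poly e := by
  unfold e
  fun_prop

/-- the reduction -/
def redT (φ : List (NV × NV × NV)) : Inst := φ.map (fun t => (0, [e t.1, e t.2.1, e t.2.2]))

theorem redT_poly : Poly redT := by
  have := e_poly
  unfold redT
  fun_prop

/-- a tuple with increasing or decreasing first two entries -/
def atup {m : ℕ} (hm : 2 ≤ m) (M : ℚ) (b : Bool) : Fin m → ℚ := fun l =>
  if l = z1 hm then (bif b then M + 2 else M) else M + 1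

theorem atup_z0 {m : ℕ} (hm : 2 ≤ m) (M : ℚ) (b : Bool) : atup hm M b (z0 hm) = M + 1 := by
  rw [atup, if_neg (z0_ne_z1 hm)]

theorem atup_z1 {m : ℕ} (hm : 2 ≤ m) (M : ℚ) (b : Bool) :
    atup hm M b (z1 hm) = bif b then M + 2 else M := by
  rw [atup, if_pos rfl]

theorem tp_lt {m : ℕ} {a b : Fin m → ℚ}
    (h : tp FirstOrder.Language.order c a = tp FirstOrder.Language.order c b) (l l' : Fin m) :
    a l < a l' ↔ b l < b l' := by
  have h1 : SameType FirstOrder.Language.order c a b := Quotient.exact h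
  rw [sameType_iff] at h1
  rw [← not_le, ← not_le, h1.1]

theorem redT_correct {m : ℕ} (hm : 2 ≤ m) (φ : List (NV × NV × NV)) :
    NAE φ ↔ (NT c hm).CSP (redT φ) := by
  classical
  constructor
  · rintro ⟨τ, hτ⟩
    obtain ⟨M, hM⟩ : ∃ M, ∀ i, c i < M := by
      obtain ⟨M, hM⟩ := (Set.finite_range c).bddAbove
      exact ⟨M + 1, fun i => lt_of_le_of_lt (hM ⟨i, rfl⟩) (lt_add_one M)⟩
    have hcell : ∀ x y, M ≤ x → M ≤ y → Cell c x y := fun x y hx hy i =>
      Or.inr ⟨(hM i).trans_le hx, (hM i).trans_le hy⟩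
    refine ⟨fun x => tp FirstOrder.Language.order c
      (atup hm M (decide (∃ v, e v = x ∧ τ v = true))), fun p hp => ?_⟩
    have he : ∀ v, decide (∃ w, e w = e v ∧ τ w = true) = τ v := by
      intro v
      rw [Bool.eq_iff_iff, decide_eq_true_eq]
      constructor
      · rintro ⟨w, hw, hw'⟩
        rw [← e_injective hw]
        exact hw'
      · intro h
        exact ⟨v, rfl, h⟩
    rw [redT, List.mem_map] at hp
    obtain ⟨t, ht, rfl⟩ := hp
    refine ⟨Nat.zero_lt_one, rfl, ?_⟩
    show (fun i : Fin 3 => tp FirstOrder.Language.order c (atup hm M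
      (decide (∃ v, e v = ([e t.1, e t.2.1, e t.2.2] : List ℕ).get i ∧ τ v = true)))) ∈ NR c hm
    refine ⟨fun i => atup hm M (τ (![t.1, t.2.1, t.2.2] i)), fun i => ?_, fun i => ?_, fun i => ?_,
      fun i => ?_, ?_, ?_⟩
    · have : ([e t.1, e t.2.1, e t.2.2] : List ℕ).get i = e (![t.1, t.2.1, t.2.2] i) := by
        fin_cases i <;> rfl
      simp only
      rw [this, he]
    · beta_reduce
      rw [atup_z0, atup_z0]
      exact hcell _ _ (by linarith) (by linarith)
    · beta_reduce
      rw [atup_z0, atup_z1]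
      refine hcell _ _ (by linarith) ?_
      cases τ (![t.1, t.2.1, t.2.2] i)
      · exact le_rfl
      · show M ≤ M + 2
        linarith
    · beta_reduce
      rw [atup_z0, atup_z1]
      cases τ (![t.1, t.2.1, t.2.2] i)
      · show M + 1 ≠ M
        linarith
      · show M + 1 ≠ M + 2
        linarith
    · by_contra hcon
      push Not at hcon
      have h1 : ∀ i, τ (![t.1, t.2.1, t.2.2] i) = false := by
        intro i
        have := hcon i
        rw [atup_z0, atup_z1] at this
        cases h : τ (![t.1, t.2.1, t.2.2] i)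
        · rfl
        · rw [h] at this
          simp only [cond_true] at this
          linarith
      have h2 := h1 0
      have h3 := h1 1
      have h4 := h1 2
      simp only [Matrix.cons_val_zero, Matrix.cons_val_one, Matrix.cons_val] at h2 h3 h4
      exact hτ t ht ⟨by rw [h2, h3], by rw [h3, h4]⟩
    · by_contra hcon
      push Not at hcon
      have h1 : ∀ i, τ (![t.1, t.2.1, t.2.2] i) = true := by
        intro i
        have := hcon i
        rw [atup_z0, atup_z1] at this
        cases h : τ (![t.1, t.2.1, t.2.2] i)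
        · rw [h] at this
          simp only [cond_false] at this
          linarith
        · rfl
      have h2 := h1 0
      have h3 := h1 1
      have h4 := h1 2
      simp only [Matrix.cons_val_zero, Matrix.cons_val_one, Matrix.cons_val] at h2 h3 h4
      exact hτ t ht ⟨by rw [h2, h3], by rw [h3, h4]⟩
  · rintro ⟨h, hh⟩
    refine ⟨fun v => decide (∃ a : Fin m → ℚ, h (e v) = tp FirstOrder.Language.order c a ∧
      a (z0 hm) < a (z1 hm)), fun t ht hcon => ?_⟩
    obtain ⟨hj, hl, hr⟩ := hh (0, [e t.1, e t.2.1, e t.2.2])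
      (List.mem_map.2 ⟨t, ht, rfl⟩)
    obtain ⟨a, ha, -, -, hne, ⟨i, hi⟩, ⟨i', hi'⟩⟩ : (fun i : Fin 3 =>
      h (([e t.1, e t.2.1, e t.2.2] : List ℕ).get i)) ∈ NR c hm := hr
    have key : ∀ i, (∃ b : Fin m → ℚ, h (e (![t.1, t.2.1, t.2.2] i)) =
        tp FirstOrder.Language.order c b ∧ b (z0 hm) < b (z1 hm)) ↔
          a i (z0 hm) < a i (z1 hm) := by
      intro i
      have h1 : h (e (![t.1, t.2.1, t.2.2] i)) = tp FirstOrder.Language.order c (a i) := by
        rw [← ha i]
        fin_cases i <;> rfl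
      constructor
      · rintro ⟨b, hb, hb'⟩
        rw [h1] at hb
        exact (tp_lt c hb _ _).2 hb'
      · intro h2
        exact ⟨a i, h1, h2⟩
    have h1 : a 0 (z0 hm) < a 0 (z1 hm) ↔ a 1 (z0 hm) < a 1 (z1 hm) :=
      (key 0).symm.trans ((decide_eq_decide.1 hcon.1).trans (key 1))
    have h2 : a 1 (z0 hm) < a 1 (z1 hm) ↔ a 2 (z0 hm) < a 2 (z1 hm) :=
      (key 1).symm.trans ((decide_eq_decide.1 hcon.2).trans (key 2))
    have hall : ∀ i, (a i (z0 hm) < a i (z1 hm) ↔ a 0 (z0 hm) < a 0 (z1 hm)) := by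
      intro i
      fin_cases i
      · rfl
      · exact h1.symm
      · exact (h1.trans h2).symm
    have h5 := (hall i).1 hi
    have h6 := (hall i').2 h5
    exact lt_asymm h6 hi'

/-- The CSP of `(S; NR)` is NP-hard. -/
theorem hardI_NT {m : ℕ} (hm : 2 ≤ m) : HardI (NT c hm).CSP :=
  hardI_NAE.trans redT_poly (redT_correct c hm)

theorem admissible_NT {m : ℕ} (hm : 2 ≤ m) :
    Admissible FirstOrder.Language.order c (fun _ : Unit => 2)
      (fun _ => {v : Fin 2 → ℚ | v 0 < v 1}) m (NT c hm) :=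
  fun _ _ _ hF _ => nr_preserved hm hF

end Pool.Agent.H796R3.TC
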