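import Pool.Agent.H796R3.TC.Stmts

set_option autoImplicit false

/-!
# Types in the order of the rationals
-/

namespace Pool.Agent.H796R3.TC

open FirstOrder FirstOrder.Language Pool.Agent.NPC

/-- The structure `(ℚ; ≤)`. -/
@[instance_reducible] def ratStr : FirstOrder.Language.order.Structure ℚ := orderStructure ℚ

attribute [local instance] ratStr

theorem ratOrd : FirstOrder.Language.order.OrderedStructure ℚ := ⟨fun _ => Iff.rfl⟩

attribute [local instance] ratOrd

theorem rat_homogeneous : FirstOrder.Language.order.IsUltrahomogeneous ℚ :=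
  (isFraisseLimit_of_countable_nonempty_dlo ℚ).ultrahomogeneous

theorem exists_aut {N : ℕ} (u v : Fin N → ℚ) (h : ∀ i j, u i ≤ u j ↔ v i ≤ v j) :
    ∃ g : ℚ ≃[FirstOrder.Language.order] ℚ, ∀ i, g (u i) = v i := by
  classical
  let S : FirstOrder.Language.order.Substructure ℚ :=
    Substructure.closure FirstOrder.Language.order (Set.range u)
  have hS : ∀ x : S, ∃ i, u i = x.1 := by
    intro x
    have := x.2
    simp only [S] at this
    rw [Substructure.mem_closure_iff_of_isRelational] at this
    exact this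
  choose idx hidx using hS
  have hinj : ∀ i j, u i = u j → v i = v j := fun i j hij =>
    le_antisymm ((h i j).1 hij.le) ((h j i).1 hij.ge)
  let e : S ↪o ℚ := OrderEmbedding.ofMapLEIff (fun x => v (idx x)) (fun x y => by
    rw [← h, hidx, hidx]; rfl)
  obtain ⟨g, hg⟩ := rat_homogeneous S (Substructure.fg_closure (Set.finite_range u))
    (StrongHomClass.toEmbedding e)
  refine ⟨g, fun i => ?_⟩
  have hmem : u i ∈ S := Substructure.subset_closure ⟨i, rfl⟩
  have h1 : (StrongHomClass.toEmbedding e : S ↪[FirstOrder.Language.order] ℚ) ⟨u i, hmem⟩ =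
      (g.toEmbedding.comp S.subtype) ⟨u i, hmem⟩ := by rw [hg]
  have h2 : v (idx ⟨u i, hmem⟩) = g (u i) := h1
  rw [← h2]
  exact hinj _ _ (hidx ⟨u i, hmem⟩)

theorem aut_le (g : ℚ ≃[FirstOrder.Language.order] ℚ) (x y : ℚ) : g x ≤ g y ↔ x ≤ y := by
  have := (StrongHomClass.toOrderIsoClass FirstOrder.Language.order ℚ ℚ
    (ℚ ≃[FirstOrder.Language.order] ℚ)).map_le_map_iff g (a := x) (b := y)
  exact this

end Pool.Agent.H796R3.TC
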