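import Pool.Agent.H796R3.TC.Defs

set_option autoImplicit false

/-!
# Tasks
-/

namespace Pool.Agent.H796R3.TC

open FirstOrder FirstOrder.Language Pool.Agent.NPC

/-- The Ramsey property of finite linear orders. -/
def TaskA : Prop :=
  @RamseyProp FirstOrder.Language.order ℚ (FirstOrder.Language.orderStructure ℚ)

/-- `(ℚ; ≤)` is finitely bounded. -/
def TaskB : Prop :=
  @FinitelyBounded FirstOrder.Language.order ℚ (FirstOrder.Language.orderStructure ℚ)

/-- `CSP(ℚ; <)` is in `P`. -/
def TaskC : Prop :=
  Tractable (fun _ : Unit => 2) (fun _ => {v : Fin 2 → ℚ | v 0 < v 1})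

/-- finite-domain CSPs are in `NP`. -/
def TaskD : Prop := ∀ (B : Type) [Finite B] (A : Template B), InNPP A.CSP

/-- finitely many types over the empty tuple -/
def TaskE : Prop :=
  ∀ (L : FirstOrder.Language.{0, 0}) (D : Type) [L.Structure D], (∀ n, IsEmpty (L.Functions n)) →
    Finite (Σ n, L.Relations n) → L.IsUltrahomogeneous D → ∀ (c : Fin 0 → D) (m : ℕ),
      Finite (Types L c m)

end Pool.Agent.H796R3.TC
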