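import Pool.Agent.H796R3.TC.Stmts
import Pool.Agent.NPC.Dec

set_option autoImplicit false

/-!
# Finite-domain CSPs are in `NP` (helper62)
-/

namespace Pool.Agent.H796R3.TC.TaskDProof

open Pool.Agent.NPC Pool.Agent.H796R3.TC

/-- the value of the variable `v` in the association list `w` -/
def val (w : List (ℕ × ℕ)) (v : ℕ) : ℕ := ((w.filter (fun p => decide (p.1 = v))).head?.getD (0, 0)).2

theorem val_map (l : List ℕ) (f : ℕ → ℕ) {v : ℕ} (hv : v ∈ l) :
    val (l.map (fun v => (v, f v))) v = f v := by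
  unfold val
  have h1 : ∀ q ∈ (l.map (fun v => (v, f v))).filter (fun p => decide (p.1 = v)),
      q = (v, f v) := by
    intro q hq
    rw [List.mem_filter, List.mem_map] at hq
    obtain ⟨⟨u, _, rfl⟩, h⟩ := hq
    simp only [decide_eq_true_eq] at h
    rw [h]
  have h2 : (v, f v) ∈ (l.map (fun v => (v, f v))).filter (fun p => decide (p.1 = v)) := by
    rw [List.mem_filter, List.mem_map]
    exact ⟨⟨v, hv, rfl⟩, by simp⟩
  generalize (l.map (fun v => (v, f v))).filter (fun p => decide (p.1 = v)) = L at h1 h2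
  cases L with
  | nil => simp at h2
  | cons a L =>
    have := h1 a (by simp)
    simp [this]

theorem poly_filter {α : Type} [TEnc α] {w : α → List (ℕ × ℕ)} {v : α → ℕ} (hw : NPC.Poly w)
    (hv : NPC.Poly v) : NPC.Poly (fun a => (w a).filter (fun p => decide (p.1 = v a))) := by
  refine NPC.Poly.filter (p := fun a (p : ℕ × ℕ) => decide (p.1 = v a)) hw ?_
  have h1 : NPC.Poly (fun x : α × (ℕ × ℕ) => x.2.1) :=
    NPC.Poly.fst (f := fun x : α × (ℕ × ℕ) => x.2) (NPC.Poly.snd (f := fun x : α × (ℕ × ℕ) => x)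
      NPC.Poly.id)
  have h2 : NPC.Poly (fun x : α × (ℕ × ℕ) => v x.1) :=
    NPC.Poly.comp (g := v) (f := fun x : α × (ℕ × ℕ) => x.1) hv
      (NPC.Poly.fst (f := fun x : α × (ℕ × ℕ) => x) NPC.Poly.id)
  exact NPC.Poly.decide_eq h1 h2

theorem poly_val {α : Type} [TEnc α] {w : α → List (ℕ × ℕ)} {v : α → ℕ} (hw : NPC.Poly w)
    (hv : NPC.Poly v) : NPC.Poly (fun a => val (w a) (v a)) :=
  NPC.Poly.snd (NPC.Poly.head?_getD (poly_filter hw hv) (0, 0))

theorem sz_map_pair (c : ℕ) (f : ℕ → ℕ) (hf : ∀ v, sz (f v) ≤ c) (l : List ℕ) :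
    sz (l.map (fun v => (v, f v))) ≤ (c + 2) * sz l := by
  induction l with
  | nil => simp
  | cons a l ih =>
    have h1 := hf a
    simp only [List.map_cons, sz_list_cons, sz_pair]
    nlinarith [sz_pos a]

theorem sz_vars (X : Inst) : sz (X.flatMap (fun p => p.2)) ≤ sz X := by
  induction X with
  | nil => simp
  | cons p X ih =>
    have h1 := sz_append p.2 (X.flatMap (fun p => p.2))
    obtain ⟨a, l⟩ := p
    simp only [List.flatMap_cons, sz_list_cons, sz_pair] at *
    omega

theorem taskD : TaskD := by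
  classical
  intro B hB A
  rcases isEmpty_or_nonempty B with hE | hN
  · refine inNPP_of (α := Inst) (β := Unit) (R := fun _ => false) (NPC.Poly.const _) 0 fun X => ?_
    constructor
    · rintro ⟨h, _⟩
      exact (hE.false (h 0)).elim
    · rintro ⟨w, _, hw⟩
      simp at hw
  · have : Fintype B := Fintype.ofFinite B
    let e : B ≃ Fin (Nat.card B) := Finite.equivFin B
    let S : List (Σ j : Fin A.k, (Fin (A.ar j) → B)) :=
      (Finset.univ.filter (fun s : (Σ j : Fin A.k, (Fin (A.ar j) → B)) =>
        s.2 ∈ A.rel s.1)).toList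
    let Table : List (ℕ × List ℕ) :=
      S.map (fun s => (s.1.val, List.ofFn (fun i => (e (s.2 i)).val)))
    have hS : ∀ s : (Σ j : Fin A.k, (Fin (A.ar j) → B)), s ∈ S ↔ s.2 ∈ A.rel s.1 := by
      intro s; simp [S]
    let R : Inst × List (ℕ × ℕ) → Bool := fun q =>
      q.1.all (fun p => decide ((p.1, p.2.map (val q.2)) ∈ Table))
    have hR : NPC.Poly R := by
      refine NPC.Poly.all (p := fun (q : Inst × List (ℕ × ℕ)) (p : ℕ × List ℕ) =>
        decide ((p.1, p.2.map (val q.2)) ∈ Table)) (NPC.Poly.fst NPC.Poly.id) ?_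
      have a1 : NPC.Poly (fun x : (Inst × List (ℕ × ℕ)) × (ℕ × List ℕ) => x.2) :=
        NPC.Poly.snd NPC.Poly.id
      have a2 : NPC.Poly (fun x : ((Inst × List (ℕ × ℕ)) × (ℕ × List ℕ)) × ℕ => x.1.1.2) :=
        NPC.Poly.snd (NPC.Poly.fst (NPC.Poly.fst NPC.Poly.id))
      have a3 : NPC.Poly (fun x : ((Inst × List (ℕ × ℕ)) × (ℕ × List ℕ)) × ℕ => x.2) :=
        NPC.Poly.snd NPC.Poly.id
      have a4 : NPC.Poly (fun x : (Inst × List (ℕ × ℕ)) × (ℕ × List ℕ) =>
          x.2.2.map (fun v => val x.1.2 v)) :=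
        NPC.Poly.map (F := fun (x : (Inst × List (ℕ × ℕ)) × (ℕ × List ℕ)) v => val x.1.2 v)
          (NPC.Poly.snd a1) (poly_val a2 a3)
      exact (NPC.Poly.decide_mem (NPC.Poly.pair (NPC.Poly.fst a1) a4) (NPC.Poly.const Table)).congr
        fun a => decide_eq_decide.2 Iff.rfl
    -- bound for the sizes of the values
    let c : ℕ := Finset.univ.sup (fun i : Fin (Nat.card B) => sz (i.val : ℕ))
    have hc : ∀ b : B, sz ((e b).val : ℕ) ≤ c := fun b =>
      Finset.le_sup (f := fun i : Fin (Nat.card B) => sz (i.val : ℕ)) (Finset.mem_univ (e b))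
    refine inNPP_of (α := Inst) (β := List (ℕ × ℕ)) (R := R) hR
      (Polynomial.C (c + 2) * Polynomial.X) fun X => ?_
    constructor
    · rintro ⟨h, hX⟩
      refine ⟨(X.flatMap (fun p => p.2)).map (fun v => (v, (e (h v)).val)), ?_, ?_⟩
      · have h1 := sz_map_pair c (fun v => (e (h v)).val) (fun v => hc _)
          (X.flatMap (fun p => p.2))
        have h2 := sz_vars X
        simp only [Polynomial.eval_mul, Polynomial.eval_C, Polynomial.eval_X]
        exact h1.trans (Nat.mul_le_mul_left _ h2)
      · simp only [R, List.all_eq_true, decide_eq_true_eq]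
        intro p hp
        obtain ⟨hj, hl, hm⟩ := hX p hp
        simp only [Table, List.mem_map]
        refine ⟨⟨⟨p.1, hj⟩, fun i => h (p.2.get (Fin.cast hl i))⟩, (hS _).2 hm, ?_⟩
        refine Prod.ext rfl ?_
        simp only
        apply List.ext_get
        · simp [hl]
        · intro n h1 h2
          simp only [List.get_eq_getElem, List.getElem_ofFn, List.getElem_map, Fin.val_cast]
          rw [val_map _ (fun v => (e (h v)).val)]
          rw [List.mem_flatMap]
          exact ⟨p, hp, List.getElem_mem _⟩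
    · rintro ⟨w, _, hw⟩
      simp only [R, List.all_eq_true, decide_eq_true_eq] at hw
      refine ⟨fun v => if hv : val w v < Nat.card B then e.symm ⟨val w v, hv⟩
        else Classical.choice hN, fun p hp => ?_⟩
      have hp' := hw p hp
      simp only [Table, List.mem_map] at hp'
      obtain ⟨⟨j, t⟩, hs, hst⟩ := hp'
      have hs' : t ∈ A.rel j := (hS _).1 hs
      obtain ⟨p1, l⟩ := p
      simp only [Prod.mk.injEq] at hst
      obtain ⟨h1, h2⟩ := hst
      subst h1
      have hlen : A.ar j = l.length := by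
        have := congrArg List.length h2
        simpa using this
      refine ⟨j.2, hlen, ?_⟩
      have : (fun i : Fin (A.ar ⟨j.val, j.2⟩) => (fun v => if hv : val w v < Nat.card B then
          e.symm ⟨val w v, hv⟩ else Classical.choice hN) (l.get (Fin.cast hlen i))) = t := by
        funext i
        have h3 : val w (l.get (Fin.cast hlen i)) = (e (t i)).val := by
          have h4 : (List.map (val w) l)[i.val]'(by simp [← hlen]) =
              (List.ofFn (fun i => (e (t i)).val))[i.val]'(by simp) := by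
            simp only [h2]
          simpa using h4
        have h5 : val w (l.get (Fin.cast hlen i)) < Nat.card B := by
          rw [h3]; exact (e (t i)).2
        simp only [h5, dif_pos]
        rw [Equiv.symm_apply_eq]
        exact Fin.ext h3
      rw [this]
      exact hs'

end Pool.Agent.H796R3.TC.TaskDProof
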